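import Pool.Agent.helper50.NPT.Spec3

/-!
# Project NPT (MP_8f32d0_ag), row NUL: the Nullstellensatz over the prime field
-/

set_option autoImplicit false

namespace NPT

open AN

noncomputable section

theorem NUL : NUL_stmt := by
  intro p _ K _ _ Sg t ht k _ _ _
  have hcharR : CharP (Subring.closure (Sg : Set K)) p :=
    (RingHom.charP_iff (Subring.closure (Sg : Set K)).subtype Subtype.val_injective p).2 inferInstance
  let _ : Algebra (ZMod p) (Subring.closure (Sg : Set K)) := ZMod.algebra _ p
  let _ : Algebra (ZMod p) k := ZMod.algebra _ p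
  have hft : Algebra.FiniteType (ZMod p) (Subring.closure (Sg : Set K)) := by
    refine ⟨⟨(Sg.preimage Subtype.val Subtype.val_injective.injOn), ?_⟩⟩
    rw [Finset.coe_preimage]
    rw [eq_top_iff]
    intro x _
    have h1 : Subring.closure (Sg : Set K) ≤
        (Subring.closure ((Subtype.val : Subring.closure (Sg : Set K) → K) ⁻¹' (Sg : Set K))).map (Subring.closure (Sg : Set K)).subtype := by
      rw [Subring.closure_le]
      intro y hy
      exact ⟨⟨y, Subring.subset_closure hy⟩, Subring.subset_closure hy, rfl⟩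
    have h2 : x ∈ Subring.closure ((Subtype.val : Subring.closure (Sg : Set K) → K) ⁻¹' (Sg : Set K)) := by
      obtain ⟨y, hy, hyx⟩ := h1 x.2
      have : y = x := Subtype.ext hyx
      rw [← this]
      exact hy
    have h3 : Subring.closure ((Subtype.val : Subring.closure (Sg : Set K) → K) ⁻¹' (Sg : Set K)) ≤
        (Algebra.adjoin (ZMod p) ((Subtype.val : Subring.closure (Sg : Set K) → K) ⁻¹' (Sg : Set K))).toSubring :=
      (Subring.closure_le).2 Algebra.subset_adjoin
    exact h3 h2
  have hJ : IsJacobsonRing (Subring.closure (Sg : Set K)) := isJacobsonRing_of_finiteType (A := ZMod p)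
  have hrad : (⊥ : Ideal (Subring.closure (Sg : Set K))).IsRadical := by
    intro x hx
    obtain ⟨n, hn⟩ := hx
    exact eq_zero_of_pow_eq_zero hn
  have hjac : (⊥ : Ideal (Subring.closure (Sg : Set K))).jacobson = ⊥ := IsJacobsonRing.out hJ hrad
  have hex : ∃ m : Ideal (Subring.closure (Sg : Set K)), m.IsMaximal ∧ t ∉ m := by
    by_contra hcon
    push Not at hcon
    have h1 : t ∈ (⊥ : Ideal (Subring.closure (Sg : Set K))).jacobson := by
      unfold Ideal.jacobson
      rw [Submodule.mem_sInf]
      rintro J ⟨-, hJm⟩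
      exact hcon J hJm
    rw [hjac] at h1
    exact ht h1
  obtain ⟨m, hm, htm⟩ := hex
  let _ : Field (Subring.closure (Sg : Set K) ⧸ m) := Ideal.Quotient.field m
  have hft' : Algebra.FiniteType (ZMod p) (Subring.closure (Sg : Set K) ⧸ m) :=
    hft.of_surjective (Ideal.Quotient.mkₐ (ZMod p) m) (Ideal.Quotient.mkₐ_surjective _ _)
  have hfin : Module.Finite (ZMod p) (Subring.closure (Sg : Set K) ⧸ m) := finite_of_finite_type_of_isJacobsonRing (ZMod p) _
  have halg : Algebra.IsAlgebraic (ZMod p) (Subring.closure (Sg : Set K) ⧸ m) := Algebra.IsAlgebraic.of_finite _ _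
  let L : (Subring.closure (Sg : Set K) ⧸ m) →ₐ[ZMod p] k := IsAlgClosed.lift
  refine ⟨L.toRingHom.comp (Ideal.Quotient.mk m), fun h0 => htm ?_⟩
  have h1 : L.toRingHom (Ideal.Quotient.mk m t) = 0 := h0
  rw [map_eq_zero] at h1
  exact Ideal.Quotient.eq_zero_iff_mem.1 h1

end

end NPT
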